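import Pool.Agent.N232.SPC.VAR
import Pool.Agent.N232.SPC.SEP
import Pool.Agent.N232.SPC.STEP
import Pool.Agent.N92.SPC.FAM
import Pool.Agent.N862.SPC.CT
import Pool.Agent.N755.SPC.CNT
import Pool.Agent.N40.SPC.TRIG
import Pool.Agent.N291.SPC.SHRB
import Pool.Agent.N690.SPC.DETG
import Pool.Agent.N437.SPC.NC
import Pool.Agent.N747.SPC.CORQ
import Pool.Agent.N31.SPC.Lowg

/-!
# Almost all sets of integers with small doubling are covered by few proper progressions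

`X` is an arbitrary finite set of integers with `log |X| ≤ n ^ c`, and the sets `A` are the subsets
of `X` with `n` elements and `|A + A| ≤ K |A|`, where `1 ≤ K ≤ n ^ (1 - δ)`. Progression means
proper generalised arithmetic progression. By Lovett and Regev progressions cannot replace convex
progressions in the polynomial Freiman-Ruzsa conjecture; here it is shown that they can for almost
all sets in every `X`.

(1) Let `1 ≤ Q ≤ K`. For all but `(C K / Q) ^ n` of the sets `A` there is a set `G ⊆ X` with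
`|A \ G| ≤ n ^ (1 - c)`, `|G| ≤ (100 / 97) |A + A|`, `|G + G| ≤ 2 Q ^ 3 |G|`, and `G` is covered by
`(2 Q) ^ (C (1 + log (1 + log (2 Q))))` translates of a progression of rank at most
`C log (2 Q)` and size at most `|G|`; and `A` is covered by
`K ^ 2 (2 Q) ^ (C (1 + log (1 + log (2 Q))))` translates of a progression of rank at most
`C log (2 Q)` and size at most `|A|`.

(2) For all but `(C K ^ (1 - 1 / (1 + log (1 + log (2 K))))) ^ n` of the sets `A` the set `A` is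
covered by `C K ^ C` translates of a progression of rank `O(log K / log log K)` and size at most
`|A|`.

(3) For every `ε` all but `(ε K) ^ n` of the sets `A` have all but `n ^ (1 - c)` elements in a set
`G` with bounded doubling and `|G| ≤ (100 / 97) |A + A|` which is covered by `O_ε(1)` translates of
a progression of bounded rank and size at most `|G|`, and `A` is covered by `O_ε(K ^ 2)`
translates of a progression of bounded rank and size at most `|A|`.

(4) If `P ⊆ X`, `|P| ≥ n` and `|P + P| ≤ K n` then the number of all the sets `A` is at least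
`(|P| / n) ^ n`. So if `X` contains an arithmetic progression `P` with `|P + P| ≤ K n ≤ R |P|`,
then the proportion of the exceptional sets is at most `(C R / Q) ^ n`,
`(C R / K ^ (1 / (1 + log (1 + log (2 K))))) ^ n`, `(ε R) ^ n`, respectively.

Project SPC, part 3: helpers 31, 40, 92, 221, 232, 291, 400, 437, 687, 690, 747, 755, 862, 953.
-/

set_option autoImplicit false

open Finset
open scoped Pointwise

namespace Pool.Agent.Results.MP_626a77_co.AlmostAllSetsProper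

/-- `P` is a proper generalised arithmetic progression `{∑ c_i v_i : |c_i| ≤ L_i}` of rank `d ≤ D`
and size `∏ (2 L_i + 1) ≤ V`. -/
def GAP (D V : ℝ) (P : Set ℤ) : Prop :=
  ∃ (d : ℕ) (v : Fin d → ℤ) (L : Fin d → ℕ), (d : ℝ) ≤ D ∧
    (∀ a b : Fin d → ℤ, (∀ i, |a i| ≤ L i) → (∀ i, |b i| ≤ L i) →
      ∑ i, a i * v i = ∑ i, b i * v i → a = b) ∧
    ((∏ i, (2 * L i + 1) : ℕ) : ℝ) ≤ V ∧
    P = {g | ∃ x : Fin d → ℤ, (∀ i, |x i| ≤ L i) ∧ g = ∑ i, x i * v i}

/-- `A` is covered by at most `M` translates of a proper generalised arithmetic progression of rank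
at most `D` and size at most `V`. -/
def Cov (D V M : ℝ) (A : Finset ℤ) : Prop :=
  ∃ (P : Set ℤ) (T : Finset ℤ), GAP D V P ∧ (T.card : ℝ) ≤ M ∧
    ∀ a ∈ A, ∃ t ∈ T, ∃ p ∈ P, a = t + p

open Pool.Agent.N437.SPC

theorem cov_of {D V M : ℝ} {A : Finset ℤ} (d : ℕ)
    (v : Fin d → ℤ) (L : Fin d → ℕ) (T : Finset ℤ)
    (hd : (d : ℝ) ≤ D)
    (hp : ∀ a b : Fin d → ℤ, (∀ i, |a i| ≤ L i) → (∀ i, |b i| ≤ L i) →
      ∑ i, a i • v i = ∑ i, b i • v i → a = b)
    (hv : ((∏ i, (2 * L i + 1) : ℕ) : ℝ) ≤ V) (hT : (T.card : ℝ) ≤ M)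
    (hc : ∀ a ∈ A, ∃ t ∈ T, ∃ c : Fin d → ℤ, (∀ i, |c i| ≤ L i) ∧ a = t + ∑ i, c i • v i) :
    Cov D V M A := by
  refine ⟨_, T, ⟨d, v, L, hd, ?_, hv, rfl⟩, hT, ?_⟩
  · simpa only [smul_eq_mul] using hp
  · intro a ha
    obtain ⟨t, ht, c, hc, e⟩ := hc a ha
    exact ⟨t, ht, ∑ i, c i * v i, ⟨c, hc, rfl⟩, by simpa only [smul_eq_mul] using e⟩

theorem cov_mono {D D' V V' M M' : ℝ} (hD : D ≤ D') (hV : V ≤ V')
    (hM : M ≤ M') {A : Finset ℤ} (h : Cov D V M A) : Cov D' V' M' A := by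
  obtain ⟨P, T, ⟨d, v, L, hd, hp, hv, hP⟩, hT, hc⟩ := h
  exact ⟨P, T, ⟨d, v, L, hd.trans hD, hp, hv.trans hV, hP⟩, hT.trans hM, hc⟩

theorem tf (k : ℕ) (x : ℤ) (hk : k ≠ 0) (h : k • x = 0) : x = 0 := by
  rw [nsmul_eq_mul] at h
  rcases mul_eq_zero.1 h with h | h
  · exact absurd (by exact_mod_cast h) hk
  · exact h

theorem hCT : S_CT :=
  Pool.Agent.N862.SPC.t_CT (Pool.Agent.N92.SPC.t_FAM (Pool.Agent.N232.SPC.t_STEP
    (Pool.Agent.N232.SPC.t_SEP Pool.Agent.N232.SPC.t_VAR)))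

theorem hDETG : S_DETG :=
  Pool.Agent.N690.SPC.t_DETG Pool.Agent.N291.SPC.SHRB.t_SHRB

theorem hSTR : S_STR := t_STR hCT Pool.Agent.N755.SPC.t_CNT Pool.Agent.N40.SPC.t_TRIG

/-- What the structured set `G` gives for `A`. -/
theorem det : ∃ C : ℝ, 1 ≤ C ∧ ∀ (A G : Finset ℤ)
    (n : ℕ) (K Q : ℝ), 1 ≤ n → A.card = n → 1 ≤ Q → Q ≤ K → ((A + A).card : ℝ) ≤ K * n →
    2 * ((A \ G).card : ℝ) ≤ n → 97 * G.card ≤ 100 * (A + A).card →
    ((G + G).card : ℝ) ≤ 2 * Q ^ 3 * G.card →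
    Cov (C * Real.log (2 * Q)) G.card (mq C Q) G ∧
      Cov (C * Real.log (2 * Q)) n (K ^ 2 * mq C Q) A := by
  obtain ⟨C₀, hC₀, hD⟩ := hDETG
  refine ⟨max C₀ 160000, hC₀.trans (le_max_left _ _), ?_⟩
  intro A G n K Q hn hA hQ hQK hAA hAG hG hGG
  have hl : 0 ≤ Real.log (2 * Q) := Real.log_nonneg (by linarith)
  have hn' : (1 : ℝ) ≤ n := by exact_mod_cast hn
  have hK0 : 0 < K := by linarith
  have hGA : n ≤ 2 * (A ∩ G).card := by
    have h4 : (A \ G).card + (A ∩ G).card = A.card := Finset.card_sdiff_add_card_inter A G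
    have h5 : 2 * (A \ G).card ≤ n := by exact_mod_cast hAG
    omega
  have hGne : G.Nonempty := by
    have : 0 < (A ∩ G).card := by omega
    exact (card_pos.1 this).mono inter_subset_right
  constructor
  · obtain ⟨d, v, L, T, hd, hp, hv, hT, hc⟩ := nc_gap tf G Q hQ hGne hGG
    refine cov_of d v L T (hd.trans ?_) hp (by exact_mod_cast hv) (hT.trans ?_) hc
    · exact mul_le_mul_of_nonneg_right (le_max_right _ _) hl
    · exact mq_mono (by norm_num) (le_max_right _ _) hQ le_rfl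
  · have hG2 : (G.card : ℝ) ≤ 2 * K * n := by
      have h1 : 97 * (G.card : ℝ) ≤ 100 * ((A + A).card : ℝ) := by exact_mod_cast hG
      have h2 : 0 ≤ K * n := by positivity
      linarith
    obtain ⟨d, v, L, T, hd, hp, hv, hT, hc⟩ :=
      hD tf A G n K Q hn hA hQ hQK hAA hGA hGG hG2
    refine cov_of d v L T (hd.trans ?_) hp (by rw [hA] at hv; exact_mod_cast hv)
      (hT.trans ?_) hc
    · exact mul_le_mul_of_nonneg_right (le_max_left _ _) hl
    · rw [mb_eq]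
      exact mul_le_mul_of_nonneg_left (mq_mono hC₀ (le_max_left _ _) hQ le_rfl) (sq_nonneg K)

theorem result :
    -- (1)
    (∃ C : ℝ, 1 ≤ C ∧ ∀ δ : ℝ, 0 < δ → ∃ c : ℝ, 0 < c ∧ ∃ n₀ : ℕ,
      ∀ (X : Finset ℤ) (n : ℕ) (K Q : ℝ),
        n₀ ≤ n → Real.log X.card ≤ (n : ℝ) ^ c → 1 ≤ Q → Q ≤ K → K ≤ (n : ℝ) ^ (1 - δ) →
        ∃ E : Finset (Finset ℤ), (E.card : ℝ) ≤ (C * K / Q) ^ n ∧
          ∀ A ⊆ X, A.card = n → ((A + A).card : ℝ) ≤ K * n → A ∉ E →
            (∃ G ⊆ X, ((A \ G).card : ℝ) ≤ (n : ℝ) ^ (1 - c) ∧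
              97 * G.card ≤ 100 * (A + A).card ∧ ((G + G).card : ℝ) ≤ 2 * Q ^ 3 * G.card ∧
              Cov (C * Real.log (2 * Q)) G.card
                ((2 * Q) ^ (C * (1 + Real.log (1 + Real.log (2 * Q))))) G) ∧
            Cov (C * Real.log (2 * Q)) n
              (K ^ 2 * (2 * Q) ^ (C * (1 + Real.log (1 + Real.log (2 * Q))))) A) ∧
    -- (2)
    (∃ C : ℝ, 1 ≤ C ∧ ∀ δ : ℝ, 0 < δ → ∃ c : ℝ, 0 < c ∧ ∃ n₀ : ℕ,
      ∀ (X : Finset ℤ) (n : ℕ) (K : ℝ),
        n₀ ≤ n → Real.log X.card ≤ (n : ℝ) ^ c → 1 ≤ K → K ≤ (n : ℝ) ^ (1 - δ) →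
        ∃ E : Finset (Finset ℤ),
          (E.card : ℝ) ≤ (C * K ^ (1 - 1 / (1 + Real.log (1 + Real.log (2 * K))))) ^ n ∧
          ∀ A ⊆ X, A.card = n → ((A + A).card : ℝ) ≤ K * n → A ∉ E →
            Cov (C * Real.log (2 * K) / (1 + Real.log (1 + Real.log (2 * K)))) n (C * K ^ C) A) ∧
    -- (3)
    (∀ ε : ℝ, 0 < ε → ∃ D : ℝ, 1 ≤ D ∧ ∀ δ : ℝ, 0 < δ → ∃ c : ℝ, 0 < c ∧ ∃ n₀ : ℕ,
      ∀ (X : Finset ℤ) (n : ℕ) (K : ℝ),
        n₀ ≤ n → Real.log X.card ≤ (n : ℝ) ^ c → 1 ≤ K → K ≤ (n : ℝ) ^ (1 - δ) →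
        ∃ E : Finset (Finset ℤ), (E.card : ℝ) ≤ (ε * K) ^ n ∧
          ∀ A ⊆ X, A.card = n → ((A + A).card : ℝ) ≤ K * n → A ∉ E →
            (∃ G ⊆ X, ((A \ G).card : ℝ) ≤ (n : ℝ) ^ (1 - c) ∧
              97 * G.card ≤ 100 * (A + A).card ∧ ((G + G).card : ℝ) ≤ D * G.card ∧
              Cov D G.card D G) ∧
            Cov D n (D * K ^ 2) A) ∧
    -- (4)
    (∀ (X P : Finset ℤ) (n : ℕ) (K : ℝ),
      1 ≤ n → P ⊆ X → n ≤ P.card → ((P + P).card : ℝ) ≤ K * n →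
        ((P.card : ℝ) / n) ^ n ≤
          ({A : Finset ℤ | A ⊆ X ∧ A.card = n ∧ ((A + A).card : ℝ) ≤ K * n}.ncard : ℝ)) := by
  obtain ⟨C₁, hC₁, hdet⟩ := det
  set C : ℝ := max C₁ (2 * Real.exp 1 ^ 2) with hCdef
  have hC : 1 ≤ C := hC₁.trans (le_max_left _ _)
  have hexp : 2 * Real.exp 1 ^ 2 ≤ C := le_max_right _ _
  -- the family of exceptional sets
  have fam : ∀ δ : ℝ, 0 < δ → ∃ c : ℝ, 0 < c ∧ ∃ n₀ : ℕ,
      ∀ (X : Finset ℤ) (n : ℕ) (K Q : ℝ),
        n₀ ≤ n → Real.log X.card ≤ (n : ℝ) ^ c → 1 ≤ Q → Q ≤ K → K ≤ (n : ℝ) ^ (1 - δ) →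
        ∃ E : Finset (Finset ℤ), (E.card : ℝ) ≤ (C * K / Q) ^ n ∧
          ∀ A ⊆ X, A.card = n → ((A + A).card : ℝ) ≤ K * n → A ∉ E →
            (∃ G ⊆ X, ((A \ G).card : ℝ) ≤ (n : ℝ) ^ (1 - c) ∧
              97 * G.card ≤ 100 * (A + A).card ∧ ((G + G).card : ℝ) ≤ 2 * Q ^ 3 * G.card ∧
              Cov (C * Real.log (2 * Q)) G.card (mq C Q) G) ∧
            Cov (C * Real.log (2 * Q)) n (K ^ 2 * mq C Q) A := by
    intro δ hδ
    obtain ⟨c, hc, n₀, h⟩ := hSTR δ hδ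
    refine ⟨c, hc, n₀, ?_⟩
    intro X n K Q hn hX hQ hQK hK
    obtain ⟨hn1, hnc, hcard⟩ := h X n K Q hn hX hQ hQK hK
    set S : Set (Finset ℤ) := {A : Finset ℤ | A ⊆ X ∧ A.card = n ∧
      ((A + A).card : ℝ) ≤ K * n ∧ ¬ Str X c Q A} with hS
    have hfin : S.Finite := by
      refine (X.powerset.finite_toSet).subset ?_
      rintro A ⟨hA, -⟩
      simpa using hA
    have hQ0 : (0 : ℝ) < Q := by linarith
    have hK0 : (0 : ℝ) < K := by linarith
    refine ⟨hfin.toFinset, ?_, ?_⟩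
    · rw [← Set.ncard_eq_toFinset_card S hfin]
      refine hcard.trans (pow_le_pow_left₀ (by positivity) ?_ n)
      gcongr
    · intro A hAX hAn hAA hAE
      have hstr : Str X c Q A := by
        by_contra hcon
        exact hAE (by simpa [hS] using ⟨hAX, hAn, hAA, hcon⟩)
      obtain ⟨G, hGX, hG1, hG2, hG3⟩ := hstr
      rw [hAn] at hG1
      have hl : 0 ≤ Real.log (2 * Q) := Real.log_nonneg (by linarith)
      obtain ⟨h1, h2⟩ := hdet A G n K Q hn1 hAn hQ hQK hAA (by linarith) hG2 hG3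
      have hmul : C₁ * Real.log (2 * Q) ≤ C * Real.log (2 * Q) :=
        mul_le_mul_of_nonneg_right (le_max_left _ _) hl
      have hmq : mq C₁ Q ≤ mq C Q := mq_mono hC₁ (le_max_left _ _) hQ le_rfl
      exact ⟨⟨G, hGX, hG1, hG2, hG3, cov_mono hmul le_rfl hmq h1⟩,
        cov_mono hmul le_rfl (mul_le_mul_of_nonneg_left hmq (sq_nonneg K)) h2⟩
  refine ⟨⟨C, hC, fam⟩, ?_, ?_, ?_⟩
  · obtain ⟨C', hC', hcor⟩ := Pool.Agent.N747.SPC.t_CORQ C hC
    refine ⟨C', hC', ?_⟩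
    intro δ hδ
    obtain ⟨c, hc, n₀, h⟩ := fam δ hδ
    refine ⟨c, hc, n₀, ?_⟩
    intro X n K hn hX hK1 hK
    obtain ⟨Q, hQ1, hQK, hd, hm, hb⟩ := hcor K hK1
    obtain ⟨E, hE, h1⟩ := h X n K Q hn hX hQ1 hQK hK
    refine ⟨E, hE.trans ?_, ?_⟩
    · apply pow_le_pow_left₀ _ hb
      have : (0 : ℝ) < Q := by linarith
      have : (0 : ℝ) < K := by linarith
      positivity
    · intro A hAX hAn hAA hAE
      exact cov_mono hd le_rfl hm (h1 A hAX hAn hAA hAE).2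
  · intro ε hε
    set Q₀ : ℝ := max 1 (C / ε) with hQ₀
    have hQ₀1 : 1 ≤ Q₀ := le_max_left _ _
    have hlog0 : 0 ≤ Real.log (2 * Q₀) := Real.log_nonneg (by linarith)
    have hM0 : 0 < mq C Q₀ := mq_pos hQ₀1
    have hCl : 0 ≤ C * Real.log (2 * Q₀) := mul_nonneg (by linarith) hlog0
    have hQ3 : 0 ≤ 2 * Q₀ ^ 3 := by positivity
    set D : ℝ := 1 + C * Real.log (2 * Q₀) + mq C Q₀ + 2 * Q₀ ^ 3 with hDdef
    have hDM : mq C Q₀ ≤ D := by linarith
    have hDd : C * Real.log (2 * Q₀) ≤ D := by linarith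
    have hDQ : 2 * Q₀ ^ 3 ≤ D := by linarith
    have hD1 : 1 ≤ D := by linarith
    refine ⟨D, hD1, ?_⟩
    intro δ hδ
    obtain ⟨c, hc, n₀, h⟩ := fam δ hδ
    refine ⟨c, hc, max n₀ 1, ?_⟩
    intro X n K hn hX hK1 hK
    have hn0 : n₀ ≤ n := (le_max_left _ _).trans hn
    have hn1 : 1 ≤ n := (le_max_right _ _).trans hn
    have hKpos : (0 : ℝ) < K := by linarith
    rcases le_total Q₀ K with hQK | hQK
    · obtain ⟨E, hE, h1⟩ := h X n K Q₀ hn0 hX hQ₀1 hQK hK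
      refine ⟨E, hE.trans ?_, ?_⟩
      · have hQpos : (0 : ℝ) < Q₀ := by linarith
        apply pow_le_pow_left₀ (by positivity)
        rw [div_le_iff₀ hQpos]
        have h3 : C / ε ≤ Q₀ := le_max_right _ _
        have h4 : C ≤ ε * Q₀ := by
          rw [div_le_iff₀ hε] at h3
          linarith
        nlinarith
      · intro A hAX hAn hAA hAE
        obtain ⟨⟨G, hGX, hG1, hG2, hG3, hG4⟩, h2⟩ := h1 A hAX hAn hAA hAE
        refine ⟨⟨G, hGX, hG1, hG2, hG3.trans ?_, cov_mono hDd le_rfl hDM hG4⟩,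
          cov_mono hDd le_rfl ?_ h2⟩
        · exact mul_le_mul_of_nonneg_right hDQ (Nat.cast_nonneg _)
        · rw [mul_comm D]
          exact mul_le_mul_of_nonneg_left hDM (sq_nonneg K)
    · refine ⟨∅, ?_, ?_⟩
      · simp only [card_empty, Nat.cast_zero]
        positivity
      · intro A hAX hAn hAA _
        have hn' : (0 : ℝ) ≤ n := Nat.cast_nonneg n
        have hG3 : ((A + A).card : ℝ) ≤ 2 * K ^ 3 * A.card := by
          rw [hAn]
          refine hAA.trans ?_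
          have h3 : K ≤ 2 * K ^ 3 := by nlinarith [sq_nonneg (K - 1), sq_nonneg K]
          exact mul_le_mul_of_nonneg_right h3 hn'
        have hG2 : 97 * A.card ≤ 100 * (A + A).card := by
          have : A.card ≤ (A + A).card := by
            rcases A.eq_empty_or_nonempty with rfl | hne
            · simp
            · exact Finset.card_le_card_add_right hne
          omega
        obtain ⟨h1, h2⟩ := hdet A A n K K hn1 hAn hK1 le_rfl hAA (by simp) hG2 hG3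
        have hlK : Real.log (2 * K) ≤ Real.log (2 * Q₀) :=
          Real.log_le_log (by linarith) (by linarith)
        have hlK0 : 0 ≤ Real.log (2 * K) := Real.log_nonneg (by linarith)
        have hmul : C₁ * Real.log (2 * K) ≤ D :=
          (mul_le_mul (le_max_left _ _) hlK hlK0 (by linarith)).trans hDd
        have hmq : mq C₁ K ≤ D := (mq_mono hC₁ (le_max_left _ _) hK1 hQK).trans hDM
        refine ⟨⟨A, hAX, ?_, hG2, ?_, cov_mono hmul le_rfl hmq h1⟩,
          cov_mono hmul le_rfl ?_ h2⟩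
        · simp only [sdiff_self, bot_eq_empty, card_empty, Nat.cast_zero]
          positivity
        · refine hG3.trans (mul_le_mul_of_nonneg_right ?_ (Nat.cast_nonneg _))
          refine le_trans ?_ hDQ
          gcongr
        · rw [mul_comm D]
          exact mul_le_mul_of_nonneg_left hmq (sq_nonneg K)
  · intro X P n K hn hPX hnP hPK
    exact Pool.Agent.N31.SPC.Lowg.t_LOWG X P n K hn hPX hnP hPK

end Pool.Agent.Results.MP_626a77_co.AlmostAllSetsProper
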