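import Pool.Agent.N173.BR.Final

set_option autoImplicit false
open scoped Pointwise

namespace Pool.Agent.Results.MP_626a77_co.IteratedDifferenceSets

/-- Near-polynomial Bogolyubov-Ruzsa theorem for iterated difference sets, in an arbitrary abelian
group. Let `A` be finite and nonempty with `|A + A| ≤ K |A|`, and write `l = log (2 K)`. There are
a number `k ≤ 2 ^ 125 (1 + l) ^ 10`, a centrally symmetric convex body `B` in dimension at most
`300 l`, a homomorphism `ψ` from the integer lattice and a finite subgroup `H` (trivial in the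
integers) such that for the dilate `B' = (1 + l) ^ 3 B`:
* `ψ (c) + h` belongs to `k A - k A` for all lattice points `c` of `B'` and `h` in `H`;
* these elements are pairwise distinct;
* their number is at most `(2 K) ^ (8000 (1 + log (1 + l))) |A|`, while the number of those with
  `c` in `B` is at least `(2 K) ^ (-8000 (1 + log (1 + l))) |A|`;
* `A` is covered by at most `(2 K) ^ (8000 (1 + log (1 + l)))` translates of `ψ (ℤ^d ∩ B) + H`. -/
theorem result {Γ : Type*} [AddCommGroup Γ] [DecidableEq Γ]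
    (K : ℝ) (A : Finset Γ) (hA : A.Nonempty) (hK : ((A + A).card : ℝ) ≤ K * (A.card : ℝ)) :
    ∃ (k d : ℕ) (B : Set (Fin d → ℝ)) (ψ : (Fin d → ℤ) →+ Γ) (H : AddSubgroup Γ) (T : Finset Γ),
      (k : ℝ) ≤ 2 ^ 125 * (1 + Real.log (2 * K)) ^ 10 ∧
      (d : ℝ) ≤ 300 * Real.log (2 * K) ∧
      Convex ℝ B ∧ IsCompact B ∧ (interior B).Nonempty ∧ (∀ x ∈ B, -x ∈ B) ∧
      Finite H ∧
      (∀ c : Fin d → ℤ, (fun i => (c i : ℝ) / (1 + Real.log (2 * K)) ^ 3) ∈ B → ∀ h ∈ H,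
        ∃ f g : Fin k → Γ, (∀ i, f i ∈ A) ∧ (∀ i, g i ∈ A) ∧
          ψ c + h = ∑ i, f i - ∑ i, g i) ∧
      (∀ c c' : Fin d → ℤ, (fun i => (c i : ℝ) / (1 + Real.log (2 * K)) ^ 3) ∈ B →
        (fun i => (c' i : ℝ) / (1 + Real.log (2 * K)) ^ 3) ∈ B → ∀ h ∈ H, ∀ h' ∈ H,
        ψ c + h = ψ c' + h' → c = c' ∧ h = h') ∧
      {c : Fin d → ℤ | (fun i => (c i : ℝ) / (1 + Real.log (2 * K)) ^ 3) ∈ B}.Finite ∧
      (({c : Fin d → ℤ | (fun i => (c i : ℝ) / (1 + Real.log (2 * K)) ^ 3) ∈ B}.ncard *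
        Nat.card H : ℕ) : ℝ) ≤
          (2 * K) ^ (8000 * (1 + Real.log (1 + Real.log (2 * K)))) * (A.card : ℝ) ∧
      (A.card : ℝ) ≤ (2 * K) ^ (8000 * (1 + Real.log (1 + Real.log (2 * K)))) *
        (({c : Fin d → ℤ | (fun i => (c i : ℝ)) ∈ B}.ncard * Nat.card H : ℕ) : ℝ) ∧
      (T.card : ℝ) ≤ (2 * K) ^ (8000 * (1 + Real.log (1 + Real.log (2 * K)))) ∧
      ∀ a ∈ A, ∃ t ∈ T, ∃ c : Fin d → ℤ, (fun i => (c i : ℝ)) ∈ B ∧
        ∃ h ∈ H, a = t + ψ c + h := by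
  obtain ⟨k, d, B, ψ, H, T, hk, hd, hB, hH, hsub, hprop, hfin, hup, hlo, hT, hcov⟩ :=
    N173.BR.br hA hK
  refine ⟨k, d, B, ψ, H, T, hk, hd, hB.1, hB.2.1, hB.2.2.1, hB.2.2.2, hH, ?_, hprop, hfin, hup,
    hlo, hT, hcov⟩
  intro c hc h hh
  obtain ⟨u, v, ⟨f, hf, rfl⟩, ⟨g, hg, rfl⟩, e⟩ := hsub c hc h hh
  exact ⟨f, g, hf, hg, e⟩

end Pool.Agent.Results.MP_626a77_co.IteratedDifferenceSets
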